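import Mathlib
import Pool.Agent.Y920.HN.Stm2

/-! HN-GRP2 (job 10288 of helper920). -/

set_option autoImplicit false

namespace Pool.Agent.Y891.HN

open Pool.Agent.Y920.HN

theorem pick {α β : Type} {f : α → β} {S : Set α} (h : (f '' S).Infinite) {F1 : Set β}
    (h1 : F1.Finite) {F2 : Set α} (h2 : F2.Finite) : ∃ m ∈ S, f m ∉ F1 ∧ m ∉ F2 := by
  obtain ⟨b, ⟨m, hm, rfl⟩, hb⟩ := (h.sdiff (h1.union (h2.image f))).nonempty
  refine ⟨m, hm, fun h3 => hb (Or.inl h3), fun h3 => hb (Or.inr ⟨m, h3, rfl⟩)⟩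

theorem inf_r {Q : Type} [Group Q] (M : Subgroup Q) [hM : M.Normal] (t : Q)
    (hinf : {q : Q | ∃ m ∈ M, q = m * t * m⁻¹}.Infinite) (g : Q) :
    ((fun m : Q => (m * g) * t * (m * g)⁻¹) '' (M : Set Q)).Infinite := by
  have h1 : Function.Injective (fun q : Q => g * q * g⁻¹) := by
    intro a b hab
    simpa using hab
  refine (hinf.image h1.injOn).mono ?_
  rintro _ ⟨_, ⟨m, hm, rfl⟩, rfl⟩
  refine ⟨g * m * g⁻¹, hM.conj_mem m hm g, ?_⟩
  simp only
  group

theorem inf_l {Q : Type} [Group Q] (M : Subgroup Q) [hM : M.Normal] (t : Q)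
    (hinf : {q : Q | ∃ m ∈ M, q = m * t * m⁻¹}.Infinite) (g : Q) :
    ((fun m : Q => (m * g)⁻¹ * t * (m * g)) '' (M : Set Q)).Infinite := by
  have h1 : Function.Injective (fun q : Q => g⁻¹ * q * g) := by
    intro a b hab
    simpa using hab
  refine (hinf.image h1.injOn).mono ?_
  rintro _ ⟨_, ⟨m, hm, rfl⟩, rfl⟩
  refine ⟨m⁻¹, M.inv_mem hm, ?_⟩
  simp only
  group

theorem stp {Q : Type} [Group Q] (M : Subgroup Q) [M.Normal] (t : Q)
    (hinf : {q : Q | ∃ m ∈ M, q = m * t * m⁻¹}.Infinite) (A0 E : Finset Q) (g g' : Q) :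
    ∃ p : Q × Q, p.1 ∈ M ∧ p.2 ∈ M ∧
      (∀ e ∈ E, ∀ e' ∈ E, (p.2 * g') * e * (p.1 * g) * t ≠ (p.2 * g') * e' * (p.1 * g) ∧
        t * ((p.2 * g') * e * (p.1 * g)) ≠ (p.2 * g') * e' * (p.1 * g)) ∧
      ∀ e ∈ E, ∀ a ∈ A0, (p.2 * g') * e * (p.1 * g) * t ≠ a ∧
        a * t ≠ (p.2 * g') * e * (p.1 * g) ∧ t * ((p.2 * g') * e * (p.1 * g)) ≠ a ∧
        t * a ≠ (p.2 * g') * e * (p.1 * g) := by
  obtain ⟨m', hm', h1, -⟩ := pick (inf_l M t hinf g')
    (F1 := Set.image2 (fun e' e : Q => e' * e⁻¹) (E : Set Q) (E : Set Q))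
    (E.finite_toSet.image2 _ E.finite_toSet) (F2 := ∅) Set.finite_empty
  set B : Set Q := ((fun a => a * t⁻¹) '' (A0 : Set Q)) ∪ ((fun a => a * t) '' (A0 : Set Q)) ∪
    ((fun a => t⁻¹ * a) '' (A0 : Set Q)) ∪ ((fun a => t * a) '' (A0 : Set Q)) with hB
  have hBf : B.Finite := (((A0.finite_toSet.image _).union (A0.finite_toSet.image _)).union
    (A0.finite_toSet.image _)).union (A0.finite_toSet.image _)
  obtain ⟨m, hm, h2, h3⟩ := pick (inf_r M t hinf g)
    (F1 := Set.image2 (fun e e' : Q => e⁻¹ * e') (E : Set Q) (E : Set Q))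
    (E.finite_toSet.image2 _ E.finite_toSet)
    (F2 := Set.image2 (fun e b : Q => e⁻¹ * (m' * g')⁻¹ * b * g⁻¹) (E : Set Q) B)
    (E.finite_toSet.image2 _ hBf)
  refine ⟨(m, m'), hm, hm', ?_, ?_⟩
  · intro e he e' he'
    refine ⟨fun h => h2 ⟨e, he, e', he', ?_⟩, fun h => h1 ⟨e', he', e, he, ?_⟩⟩
    · simp only at h ⊢
      have h4 : e * (m * g) * t = e' * (m * g) := by
        apply mul_left_cancel (a := m' * g')
        simpa only [mul_assoc] using h
      rw [eq_mul_inv_iff_mul_eq, mul_assoc, ← h4]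
      group
    · simp only at h ⊢
      have h4 : t * ((m' * g') * e) = (m' * g') * e' := by
        apply mul_right_cancel (b := m * g)
        simpa only [mul_assoc] using h
      rw [mul_inv_eq_iff_eq_mul]
      apply mul_left_cancel (a := m' * g')
      rw [← h4]
      group
  · intro e he a ha
    have h5 : ∀ b ∈ B, (m' * g') * e * (m * g) ≠ b := by
      intro b hb h
      refine h3 ⟨e, he, b, hb, ?_⟩
      simp only
      rw [← h]
      group
    refine ⟨fun h => h5 (a * t⁻¹) (Or.inl (Or.inl (Or.inl ⟨a, ha, rfl⟩))) ?_,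
      fun h => h5 (a * t) (Or.inl (Or.inl (Or.inr ⟨a, ha, rfl⟩))) h.symm,
      fun h => h5 (t⁻¹ * a) (Or.inl (Or.inr ⟨a, ha, rfl⟩)) ?_,
      fun h => h5 (t * a) (Or.inr ⟨a, ha, rfl⟩) h.symm⟩
    · rw [eq_mul_inv_iff_mul_eq]
      exact h
    · rw [eq_inv_mul_iff_mul_eq]
      exact h

/-- HN-GRP2 -/
theorem t_GRP2 : S_GRP2 := by
  classical
  intro Q _ _ M _ t ht hinf
  choose p hp1 hp2 hp3 hp4 using fun A0 : Finset Q => fun w : Finset Q × Q × Q =>
    stp M t hinf A0 w.1 w.2.1 w.2.2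
  obtain ⟨W, hW⟩ := exists_surjective_nat (Finset Q × Q × Q)
  set el : Finset Q → ℕ → Q → Q := fun A0 n e =>
    ((p A0 (W n)).2 * (W n).2.2) * e * ((p A0 (W n)).1 * (W n).2.1) with hel
  set S : ℕ → Finset Q := fun n => Nat.rec ∅ (fun n A0 => A0 ∪ (W n).1.image (el A0 n)) n with hS
  have hS0 : S 0 = ∅ := rfl
  have hSs : ∀ n, S (n + 1) = S n ∪ (W n).1.image (el (S n) n) := fun n => rfl
  have hmono : Monotone S := monotone_nat_of_le_succ fun n => by
    rw [hSs]
    exact Finset.subset_union_left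
  have hgood : ∀ n, ∀ x ∈ S n, x * t ∉ S n ∧ t * x ∉ S n := by
    intro n
    induction n with
    | zero =>
      intro x hx
      rw [hS0] at hx
      exact absurd hx (Finset.notMem_empty x)
    | succ n ih =>
      intro x hx
      rw [hSs] at hx ⊢
      rw [Finset.mem_union, Finset.mem_image] at hx
      rcases hx with hx | ⟨e, he, rfl⟩
      · constructor
        · intro h
          rw [Finset.mem_union, Finset.mem_image] at h
          rcases h with h | ⟨e, he, h⟩
          · exact (ih x hx).1 h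
          · exact (hp4 (S n) (W n) e he x hx).2.1 h.symm
        · intro h
          rw [Finset.mem_union, Finset.mem_image] at h
          rcases h with h | ⟨e, he, h⟩
          · exact (ih x hx).2 h
          · exact (hp4 (S n) (W n) e he x hx).2.2.2 h.symm
      · constructor
        · intro h
          rw [Finset.mem_union, Finset.mem_image] at h
          rcases h with h | ⟨e', he', h⟩
          · exact (hp4 (S n) (W n) e he _ h).1 rfl
          · exact (hp3 (S n) (W n) e he e' he').1 h.symm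
        · intro h
          rw [Finset.mem_union, Finset.mem_image] at h
          rcases h with h | ⟨e', he', h⟩
          · exact (hp4 (S n) (W n) e he _ h).2.2.1 rfl
          · exact (hp3 (S n) (W n) e he e' he').2 h.symm
  refine ⟨{x | ∃ n, x ∈ S n}, ?_, ?_, ?_⟩
  · rintro x ⟨n, hn⟩ ⟨k, hk⟩
    exact (hgood (max n k) x (hmono (le_max_left _ _) hn)).1 (hmono (le_max_right _ _) hk)
  · rintro x ⟨n, hn⟩ ⟨k, hk⟩
    exact (hgood (max n k) x (hmono (le_max_left _ _) hn)).2 (hmono (le_max_right _ _) hk)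
  · intro E hE g g'
    obtain ⟨n, hn⟩ := hW (hE.toFinset, g, g')
    refine ⟨(p (S n) (W n)).1, hp1 _ _, (p (S n) (W n)).2, hp2 _ _, fun e he => ?_⟩
    refine ⟨n + 1, ?_⟩
    rw [hSs, Finset.mem_union, Finset.mem_image]
    right
    refine ⟨e, ?_, ?_⟩
    · rw [hn]
      exact (Set.Finite.mem_toFinset hE).2 he
    · simp only [hel, hn]

end Pool.Agent.Y891.HN
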